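import Pool.Agent.Helper5.SX.Main

/-!
# The census advice for complements is optimal relative to an oracle

For `T ∈ NEXP` with at most `g n` strings of length `n` the complement is in `NEXP` with the
census as advice, so `g n + 1` advice strings suffice at length `n`.  Relative to an oracle
`g n` advice strings do not suffice.  For `g = 1` this is a sparse set of `NE^O` whose
complement is not in `NEXP^O`.
-/

namespace Pool.Agent.Results.MP_aaa1c3_lc.CensusAdvice

open Filter Pool.Agent.Helper5.SX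

theorem result (g : ℕ → ℕ) (hg : ∀ n, g n ≤ 2 ^ n) (hg' : ∃ᶠ n in atTop, 1 ≤ g n) :
    ∃ O : Set Str, ∃ T ∈ NE O, (∀ n, census T n ≤ g n) ∧ Tᶜ ∉ NEXP O ∧
      ∀ α : ℕ → ℕ, (∀ᶠ n in atTop, 1 ≤ g n → 2 ^ (α n + 1) ≤ g n + 1) →
        Tᶜ ∉ NEXPAdv O α := by
  obtain ⟨O, T, h2, h3, h4⟩ := census_advice g hg hg'
  refine ⟨O, T, h2, h3, ?_, h4⟩
  intro h
  refine h4 (fun _ => 0) ?_ (NEXP_subset_adv O h)
  refine Filter.Eventually.of_forall fun n hn => ?_
  simpa using hn

end Pool.Agent.Results.MP_aaa1c3_lc.CensusAdvice
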