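import Pool.Agent.Helper5.SY.Main2

/-!
# Sparse sets in NEXP, logarithmic advice, and double exponential time

Four equivalent forms of Q1, for every oracle `O` (the empty one included): the complements of the
sparse sets in `NEXP^O` are in `NEXP^O`; the same for tally sets; logarithmic advice can be
eliminated for complements of sets in `NEXP^O`; `NEE^O` is closed under complement.
-/

namespace Pool.Agent.Results.MP_aaa1c3_lc.LogAdvice

open Pool.Agent.Helper5.SX

theorem result (O : Set Str) : List.TFAE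
    [∀ A ∈ NEXP O, Sparse A → Aᶜ ∈ NEXP O,
      ∀ A ∈ NEXP O, (∀ x ∈ A, ∀ b ∈ x, b = true) → Aᶜ ∈ NEXP O,
      ∀ A ∈ NEXP O, (∃ k : ℕ, Aᶜ ∈ NEXPAdv O (fun n => k * Nat.log 2 (n + 2))) →
        Aᶜ ∈ NEXP O,
      ∀ A ∈ NEE O, Aᶜ ∈ NEE O] :=
  main_tfae4 O

end Pool.Agent.Results.MP_aaa1c3_lc.LogAdvice
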