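import Pool.Agent.Helper5.SX.General

/-!
# Sparse sets in NEXP: a relativised world with a positive answer which does not extend

Let `g n ≤ 2 ^ n` be not bounded by a polynomial. Then there is an oracle `O` relative to which
every sparse set of `NEXP` is in `EXP`, while some set `T` of `NE` with at most `g n` strings of
each length `n` has its complement outside `NEXP`.
-/

namespace Pool.Agent.Results.MP_aaa1c3_lc.SparseCollapse

open Filter Pool.Agent.Helper5.SX

theorem result (g : ℕ → ℕ) (hg : ∀ n, g n ≤ 2 ^ n)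
    (hyp : ∀ k : ℕ, ∃ᶠ n in atTop, n ^ k + k ≤ g n) :
    ∃ O : Set Str, (∀ A ∈ NEXP O, Sparse A → A ∈ EXP O) ∧
      ∃ T ∈ NE O, (∀ n, census T n ≤ g n) ∧ Tᶜ ∉ NEXP O := by
  have hyp' : ∀ k : ℕ, ∃ᶠ n in atTop, 2 ^ (fun _ : ℕ => 0) n * (fun m : ℕ => m) (n ^ k + k) ^ k ≤
      g n := by
    intro k
    have h1 := (hyp ((k + 1) * k)).and_eventually (eventually_ge_atTop (k + 2))
    refine h1.mono ?_
    rintro n ⟨h2, h3⟩
    refine le_trans ?_ h2
    have h4 : n ^ k + k ≤ n ^ (k + 1) := by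
      have h5 : 1 ≤ n ^ k := Nat.one_le_pow _ _ (by omega)
      have h6 : k ≤ k * n ^ k := Nat.le_mul_of_pos_right k (by omega)
      calc n ^ k + k ≤ n ^ k + k * n ^ k := by omega
        _ = (k + 1) * n ^ k := by ring
        _ ≤ n * n ^ k := Nat.mul_le_mul_right _ (by omega)
        _ = n ^ (k + 1) := by ring
    simp only [pow_zero, one_mul]
    calc (n ^ k + k) ^ k ≤ (n ^ (k + 1)) ^ k := Nat.pow_le_pow_left h4 k
      _ = n ^ ((k + 1) * k) := by rw [← pow_mul]
      _ ≤ n ^ ((k + 1) * k) + (k + 1) * k := Nat.le_add_right _ _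
  obtain ⟨O, h1, T, h2, h3, h4⟩ := hierarchy (fun m => m) g (fun _ => 0) monotone_id
    (fun _ => le_rfl) hg hyp'
  exact ⟨O, fun A hA hs => h1 A hA (hs.censusBd (fun _ => le_rfl)), T, h2, h3,
    fun h5 => h4 (NEXPAdv_mono O (fun _ => Nat.zero_le _) (NEXP_subset_adv O h5))⟩

end Pool.Agent.Results.MP_aaa1c3_lc.SparseCollapse
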